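import Pool.Agent.Q237.LR.Stm

/-!
# Measurability of the event that there is an eigenvector not vanishing at a point
-/

set_option autoImplicit false

namespace Pool.Agent.Q124.LR

open MeasureTheory ProbabilityTheory H10PL Set Filter Topology

variable {d : ℕ} {T0 : (Fin d → ℤ) → (Fin d → ℤ) → ℝ} {κ : (Fin d → ℤ) → ℝ} {ρ0 b : ℝ}

/-- the majorant of the squares of the kernel -/
def um (T0 : (Fin d → ℤ) → (Fin d → ℤ) → ℝ) (κ : (Fin d → ℤ) → ℝ) (y w : Fin d → ℤ) : ℝ :=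
  2 * T0 y w ^ 2 + 2 * κ (y - w) ^ 2

theorem um_nonneg (y w : Fin d → ℤ) : 0 ≤ um T0 κ y w := by
  unfold um
  positivity

theorem um_summable (h : Adm T0 κ ρ0 b) (y : Fin d → ℤ) : Summable fun w => um T0 κ y w := by
  have h1 : Summable fun w => |T0 y w| :=
    summable_of_sum_le (fun w => abs_nonneg _) (fun F => h.T0sum y F)
  have h2 : Summable fun w => T0 y w ^ 2 := by
    refine Summable.of_nonneg_of_le (fun w => sq_nonneg _) (fun w => ?_) (h1.mul_left b)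
    have h3 : |T0 y w| ≤ b := by simpa using h.T0sum y {w}
    rw [← sq_abs, sq]
    exact mul_le_mul_of_nonneg_right h3 (abs_nonneg _)
  have h3 : Summable fun w => κ (y - w) ^ 2 := by
    have := (Equiv.subLeft y).summable_iff.mpr h.κsq
    exact this
  exact (h2.mul_left 2).add (h3.mul_left 2)

theorem Kf_le_um (s : Sym2 (Fin d → ℤ) → Bool) (y w : Fin d → ℤ) :
    Kf T0 κ s y w ^ 2 ≤ um T0 κ y w := by
  unfold Kf um
  have h4 : (sg (s s(y, w)) * κ (y - w)) ^ 2 = κ (y - w) ^ 2 := by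
    rw [mul_pow, sg_sq, one_mul]
  nlinarith [sq_nonneg (T0 y w - sg (s s(y, w)) * κ (y - w))]

theorem tsum_off {a : (Fin d → ℤ) → ℝ} (ha : Summable a) (F : Finset (Fin d → ℤ)) :
    HasSum (fun w => if w ∈ F then 0 else a w) (∑' w, a w - ∑ w ∈ F, a w) := by
  have h1 : HasSum (fun w => if w ∈ F then a w else 0) (∑ w ∈ F, a w) := by
    have h0 : HasSum (fun w => if w ∈ F then a w else 0)
        (∑ w ∈ F, (if w ∈ F then a w else 0)) :=
      hasSum_sum_of_ne_finset_zero fun w hw => if_neg hw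
    have e : ∑ w ∈ F, (if w ∈ F then a w else 0) = ∑ w ∈ F, a w :=
      Finset.sum_congr rfl fun w hw => if_pos hw
    rwa [e] at h0
  have h2 := ha.hasSum.sub h1
  refine h2.congr_fun ?_
  intro w
  split_ifs <;> simp

theorem tail (h : Adm T0 κ ρ0 b) (s : Sym2 (Fin d → ℤ) → Bool) (y : Fin d → ℤ)
    (F : Finset (Fin d → ℤ)) (ψ : (Fin d → ℤ) → ℝ) (n : ℝ)
    (hψ : ∀ F : Finset (Fin d → ℤ), ∑ y ∈ F, ψ y ^ 2 ≤ n) :
    (∑' w, Kf T0 κ s y w * ψ w - ∑ w ∈ F, Kf T0 κ s y w * ψ w) ^ 2 ≤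
      n * (∑' w, um T0 κ y w - ∑ w ∈ F, um T0 κ y w) := by
  have hs : Summable fun y => ψ y ^ 2 := summable_of_sum_le (fun w => sq_nonneg _) hψ
  have hle : ∑' y, ψ y ^ 2 ≤ n := hs.tsum_le_of_sum_le hψ
  have hK := Kf_sq_summable h s y
  have hmul := (cs_tsum hK hs).1
  have hU := tsum_off (um_summable h y) F
  obtain ⟨f, hf⟩ : ∃ f : (Fin d → ℤ) → ℝ, f = fun w => if w ∈ F then 0 else Kf T0 κ s y w :=
    ⟨_, rfl⟩
  have hf1 : ∀ w, f w ^ 2 ≤ if w ∈ F then 0 else um T0 κ y w := by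
    intro w
    rw [hf]
    simp only
    split_ifs
    · norm_num
    · exact Kf_le_um s y w
  have hf2 : Summable fun w => f w ^ 2 :=
    Summable.of_nonneg_of_le (fun w => sq_nonneg _) hf1 hU.summable
  obtain ⟨h1, h2⟩ := cs_tsum hf2 hs
  have e1 : ∑' w, f w * ψ w = ∑' w, Kf T0 κ s y w * ψ w - ∑ w ∈ F, Kf T0 κ s y w * ψ w := by
    rw [← (tsum_off hmul F).tsum_eq]
    refine tsum_congr fun w => ?_
    rw [hf]
    simp only
    split_ifs <;> simp
  have e2 : ∑' w, f w ^ 2 ≤ ∑' w, um T0 κ y w - ∑ w ∈ F, um T0 κ y w := by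
    rw [← hU.tsum_eq]
    exact hf2.tsum_le_tsum hf1 hU.summable
  rw [e1] at h2
  refine h2.trans ?_
  have h3 : 0 ≤ ∑' w, f w ^ 2 := tsum_nonneg fun w => sq_nonneg _
  have h4 : 0 ≤ ∑' w, ψ w ^ 2 := tsum_nonneg fun w => sq_nonneg _
  calc (∑' w, f w ^ 2) * ∑' w, ψ w ^ 2 ≤ (∑' w, f w ^ 2) * n := mul_le_mul_of_nonneg_left hle h3
    _ ≤ (∑' w, um T0 κ y w - ∑ w ∈ F, um T0 κ y w) * n :=
        mul_le_mul_of_nonneg_right e2 (h4.trans hle)
    _ = _ := mul_comm _ _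

/-- the closed conditions -/
def Cn (T0 : (Fin d → ℤ) → (Fin d → ℤ) → ℝ) (κ : (Fin d → ℤ) → ℝ) (x : Fin d → ℤ) (n : ℝ) :
    Set ((((Fin d → ℤ) → ℝ) × (Sym2 (Fin d → ℤ) → Bool)) × (ℝ × ((Fin d → ℤ) → ℝ))) :=
  {p | p.2.2 x = 1} ∩ (⋂ F : Finset (Fin d → ℤ), {p | ∑ y ∈ F, p.2.2 y ^ 2 ≤ n}) ∩
    ⋂ (y : Fin d → ℤ), ⋂ (F : Finset (Fin d → ℤ)),
      {p | (∑ w ∈ F, Kf T0 κ p.1.2 y w * p.2.2 w + p.1.1 y * p.2.2 y - p.2.1 * p.2.2 y) ^ 2 ≤
        n * (∑' w, um T0 κ y w - ∑ w ∈ F, um T0 κ y w)}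

theorem Cn_closed (x : Fin d → ℤ) (n : ℝ) : IsClosed (Cn T0 κ x n) := by
  have hψ : ∀ y : Fin d → ℤ, Continuous fun p : (((Fin d → ℤ) → ℝ) ×
      (Sym2 (Fin d → ℤ) → Bool)) × (ℝ × ((Fin d → ℤ) → ℝ)) => p.2.2 y := fun y =>
    (continuous_apply y).comp (continuous_snd.comp continuous_snd)
  have hV : ∀ y : Fin d → ℤ, Continuous fun p : (((Fin d → ℤ) → ℝ) ×
      (Sym2 (Fin d → ℤ) → Bool)) × (ℝ × ((Fin d → ℤ) → ℝ)) => p.1.1 y := fun y =>
    (continuous_apply y).comp (continuous_fst.comp continuous_fst)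
  have hK : ∀ y w : Fin d → ℤ, Continuous fun p : (((Fin d → ℤ) → ℝ) ×
      (Sym2 (Fin d → ℤ) → Bool)) × (ℝ × ((Fin d → ℤ) → ℝ)) => Kf T0 κ p.1.2 y w := by
    intro y w
    unfold Kf
    have h1 : Continuous fun p : (((Fin d → ℤ) → ℝ) ×
      (Sym2 (Fin d → ℤ) → Bool)) × (ℝ × ((Fin d → ℤ) → ℝ)) => p.1.2 s(y, w) :=
      (continuous_apply _).comp (continuous_snd.comp continuous_fst)
    have h2 : Continuous sg := continuous_of_discreteTopology
    exact continuous_const.add ((h2.comp h1).mul continuous_const)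
  refine ((isClosed_eq (hψ x) continuous_const).inter (isClosed_iInter fun F => ?_)).inter
    (isClosed_iInter fun y => isClosed_iInter fun F => ?_)
  · exact isClosed_le (continuous_finsetSum _ fun y _ => (hψ y).pow 2) continuous_const
  · refine isClosed_le (Continuous.pow ?_ 2) continuous_const
    exact ((continuous_finsetSum _ fun w _ => (hK y w).mul (hψ w)).add ((hV y).mul (hψ y))).sub
      ((continuous_fst.comp continuous_snd).mul (hψ y))

/-- the compact set of the energies and the vectors -/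
def Kn (d : ℕ) (n : ℝ) : Set (ℝ × ((Fin d → ℤ) → ℝ)) :=
  Icc (-n) n ×ˢ Set.pi univ fun _ => Icc (-(n + 1)) (n + 1)

theorem Kn_compact (n : ℝ) : IsCompact (Kn d n) :=
  isCompact_Icc.prod (isCompact_univ_pi fun _ => isCompact_Icc)

/-- the measurability -/
theorem mea : Pool.Agent.Q237.LR.S_MEA := by
  intro d T0 κ ρ0 b h x
  have hunion : {q : ((Fin d → ℤ) → ℝ) × (Sym2 (Fin d → ℤ) → Bool) |
      ∃ (E : ℝ) (ψ : (Fin d → ℤ) → ℝ), IsEig T0 κ q.2 q.1 E ψ ∧ ψ x ≠ 0} =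
      ⋃ n : ℕ, {q | ∃ p ∈ Kn d n, (q, p) ∈ Cn T0 κ x n} := by
    ext q
    rw [mem_ofPred_eq, mem_iUnion]
    constructor
    · rintro ⟨E, ψ, ⟨hs, he⟩, hx⟩
      obtain ⟨φ, hφ⟩ : ∃ φ : (Fin d → ℤ) → ℝ, φ = fun y => (ψ x)⁻¹ * ψ y := ⟨_, rfl⟩
      have hφs : Summable fun y => φ y ^ 2 := by
        have e : (fun y => φ y ^ 2) = fun y => ((ψ x)⁻¹) ^ 2 * ψ y ^ 2 := by
          funext y
          rw [hφ]
          ring
        rw [e]
        exact hs.mul_left _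
      have hφe : ∀ y, (∑' w, Kf T0 κ q.2 y w * φ w) + q.1 y * φ y = E * φ y := by
        intro y
        have e : (fun w => Kf T0 κ q.2 y w * φ w) =
            fun w => (ψ x)⁻¹ * (Kf T0 κ q.2 y w * ψ w) := by
          funext w
          rw [hφ]
          ring
        rw [e, tsum_mul_left, hφ]
        have := he y
        simp only
        linear_combination (ψ x)⁻¹ * this
      obtain ⟨n, hn⟩ := exists_nat_ge (max |E| (∑' y, φ y ^ 2))
      have hn1 : |E| ≤ n := (le_max_left _ _).trans hn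
      have hn2 : ∑' y, φ y ^ 2 ≤ n := (le_max_right _ _).trans hn
      have hn3 : ∀ F : Finset (Fin d → ℤ), ∑ y ∈ F, φ y ^ 2 ≤ n := fun F =>
        (hφs.sum_le_tsum F fun y _ => sq_nonneg _).trans hn2
      refine ⟨n, (E, φ), ⟨abs_le.1 hn1, ?_⟩, ⟨⟨?_, ?_⟩, ?_⟩⟩
      · intro y _
        rw [mem_Icc, ← abs_le]
        have h1 := hn3 {y}
        rw [Finset.sum_singleton] at h1
        have h2 : (0 : ℝ) ≤ n := Nat.cast_nonneg n
        refine abs_le_of_sq_le_sq ?_ (by positivity)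
        nlinarith
      · show φ x = 1
        rw [hφ]
        exact inv_mul_cancel₀ hx
      · rw [mem_iInter]
        exact fun F => hn3 F
      · rw [mem_iInter]
        intro y
        rw [mem_iInter]
        intro F
        have h1 := tail h q.2 y F φ n hn3
        show (∑ w ∈ F, Kf T0 κ q.2 y w * φ w + q.1 y * φ y - E * φ y) ^ 2 ≤ _
        have h2 : ∑ w ∈ F, Kf T0 κ q.2 y w * φ w + q.1 y * φ y - E * φ y =
            -(∑' w, Kf T0 κ q.2 y w * φ w - ∑ w ∈ F, Kf T0 κ q.2 y w * φ w) := by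
          have := hφe y
          linarith
        rw [h2, neg_sq]
        exact h1
    · rintro ⟨n, ⟨E, φ⟩, -, ⟨⟨hx, hF⟩, hc⟩⟩
      rw [mem_iInter] at hF hc
      have hx1 : φ x = 1 := hx
      have hF1 : ∀ F : Finset (Fin d → ℤ), ∑ y ∈ F, φ y ^ 2 ≤ n := fun F => hF F
      have hs : Summable fun y => φ y ^ 2 := summable_of_sum_le (fun w => sq_nonneg _) hF1
      refine ⟨E, φ, ⟨hs, fun y => ?_⟩, by rw [hx1]; exact one_ne_zero⟩
      have hy := hc y
      rw [mem_iInter] at hy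
      have hmul := (cs_tsum (Kf_sq_summable h q.2 y) hs).1
      have h1 : Tendsto (fun F : Finset (Fin d → ℤ) =>
          (∑ w ∈ F, Kf T0 κ q.2 y w * φ w + q.1 y * φ y - E * φ y) ^ 2) atTop
          (𝓝 ((∑' w, Kf T0 κ q.2 y w * φ w + q.1 y * φ y - E * φ y) ^ 2)) :=
        ((hmul.hasSum.add_const _).sub_const _).pow 2
      have h2 : Tendsto (fun F : Finset (Fin d → ℤ) =>
          (n : ℝ) * (∑' w, um T0 κ y w - ∑ w ∈ F, um T0 κ y w)) atTop (𝓝 0) := by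
        have h3 : Tendsto (fun F : Finset (Fin d → ℤ) =>
            (n : ℝ) * (∑' w, um T0 κ y w - ∑ w ∈ F, um T0 κ y w)) atTop
            (𝓝 ((n : ℝ) * (∑' w, um T0 κ y w - ∑' w, um T0 κ y w))) :=
          ((um_summable h y).hasSum.const_sub _).const_mul _
        rwa [sub_self, mul_zero] at h3
      have h3 := le_of_tendsto_of_tendsto' h1 h2 fun F => hy F
      have h4 : ∑' w, Kf T0 κ q.2 y w * φ w + q.1 y * φ y - E * φ y = 0 :=
        pow_eq_zero_iff two_ne_zero |>.1 (le_antisymm h3 (sq_nonneg _))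
      exact sub_eq_zero.1 h4
  rw [hunion]
  refine MeasurableSet.iUnion fun n => IsClosed.measurableSet ?_
  have : CompactSpace (Kn d n) := isCompact_iff_compactSpace.1 (Kn_compact n)
  have h1 : IsClosed {p : (((Fin d → ℤ) → ℝ) × (Sym2 (Fin d → ℤ) → Bool)) × Kn d n |
      (p.1, (p.2 : ℝ × ((Fin d → ℤ) → ℝ))) ∈ Cn T0 κ x n} :=
    (Cn_closed x n).preimage (continuous_fst.prodMk (continuous_subtype_val.comp continuous_snd))
  have h2 := isClosedMap_fst_of_compactSpace _ h1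
  have e : {q | ∃ p ∈ Kn d n, (q, p) ∈ Cn T0 κ x n} =
      Prod.fst '' {p : (((Fin d → ℤ) → ℝ) × (Sym2 (Fin d → ℤ) → Bool)) × Kn d n |
      (p.1, (p.2 : ℝ × ((Fin d → ℤ) → ℝ))) ∈ Cn T0 κ x n} := by
    ext q
    constructor
    · rintro ⟨p, hp, hq⟩
      exact ⟨(q, ⟨p, hp⟩), hq, rfl⟩
    · rintro ⟨⟨q', p⟩, hq, rfl⟩
      exact ⟨p, p.2, hq⟩
  rw [e]
  exact h2

end Pool.Agent.Q124.LR
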